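import Pool.Agent.N661.BR.Base
import Pool.Agent.Y265.FL.B

/-!
# Project BR (MP_6b977f_mp), part BR/QUART
-/

set_option autoImplicit false
open MeasureTheory Filter Topology Complex
open scoped ContDiff

namespace Pool.Agent.N426.BRQUART

open Pool.Agent.N661.BR
open Pool.Agent.W745.RW (lap dx dy TF Dp W Sys Sol CC GG eps)
open Pool.Agent.Y265.FL (FM flat_fourth)
open Pool.Agent.TH294.RS (TF.cint TF.zero)

noncomputable section

lemma sgn_sq (a : ℤ) : ((-1 : ℂ) ^ a.natAbs) * (-1 : ℂ) ^ a.natAbs = 1 := by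
  rw [← mul_pow]; norm_num

/-- parity of the sign -/
lemma sgn_even {a : ℤ} (h : Even a) : (-1 : ℂ) ^ a.natAbs = 1 := by
  rw [Even.neg_one_pow (Int.natAbs_even.2 h)]

lemma sgn_odd {a : ℤ} (h : Odd a) : (-1 : ℂ) ^ a.natAbs = -1 := by
  rw [Odd.neg_one_pow (Int.natAbs_odd.2 h)]

lemma sgn_add (a b : ℤ) : (-1 : ℂ) ^ (a + b).natAbs = (-1) ^ a.natAbs * (-1) ^ b.natAbs := by
  rcases Int.even_or_odd a with ha | ha <;> rcases Int.even_or_odd b with hb | hb
  · rw [sgn_even ha, sgn_even hb, sgn_even (ha.add hb)]; norm_num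
  · rw [sgn_even ha, sgn_odd hb, sgn_odd (ha.add_odd hb)]; norm_num
  · rw [sgn_odd ha, sgn_even hb, sgn_odd (ha.add_even hb)]; norm_num
  · rw [sgn_odd ha, sgn_odd hb, sgn_even (ha.add_odd hb)]; norm_num

lemma sgn_neg (a : ℤ) : (-1 : ℂ) ^ (-a).natAbs = (-1) ^ a.natAbs := by
  rw [Int.natAbs_neg]

lemma sgn_two (l : ℤ) : (-1 : ℂ) ^ (2 * l).natAbs = 1 := sgn_even (even_two_mul l)

variable {B : Set ℂ} {h : ℝ} {u : ℂ → ℝ}

lemma conjW (hB : IsOpen B) (hS : Sol B h u) (k : ℤ) {z : ℂ} (hz : z ∈ B) :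
    (starRingEnd ℂ) (W h u k z) = (-1) ^ k.natAbs * W h u (-k) z :=
  (Pool.Agent.W924.RW.WP.main B hB h u hS).2.2.2 k z hz

lemma contW (hB : IsOpen B) (hS : Sol B h u) (k : ℤ) : ContinuousOn (W h u k) B :=
  ((Pool.Agent.W924.RW.WP.main B hB h u hS).1 k).continuousOn

/-- the square of `QV` -/
lemma normsq_QV (hB : IsOpen B) (hS : Sol B h u) (v : ℤ →₀ ℝ) (l : ℤ) {z : ℂ} (hz : z ∈ B) :
    ((‖QV v l h u z‖ ^ 2 : ℝ) : ℂ) = ∑ i ∈ v.support, ∑ j ∈ v.support, ((v i : ℂ) * (v j : ℂ)) *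
      (W h u i z * W h u (2 * l - i) z * W h u (-j) z * W h u (j - 2 * l) z) := by
  have h1 : ((‖QV v l h u z‖ ^ 2 : ℝ) : ℂ) = QV v l h u z * (starRingEnd ℂ) (QV v l h u z) := by
    rw [Complex.mul_conj, Complex.normSq_eq_norm_sq]
  rw [h1]
  unfold QV
  rw [map_sum, Finset.sum_mul_sum]
  refine Finset.sum_congr rfl fun i _ => Finset.sum_congr rfl fun j _ => ?_
  rw [map_mul, map_mul, Complex.conj_ofReal, conjW hB hS j hz, conjW hB hS (2 * l - j) hz]
  have e1 : -(2 * l - j) = j - 2 * l := by ring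
  have e2 : (-1 : ℂ) ^ (2 * l - j).natAbs = (-1) ^ j.natAbs := by
    rw [sub_eq_add_neg, sgn_add, sgn_two, sgn_neg, one_mul]
  rw [e1, e2]
  have := sgn_sq j
  linear_combination ((v i : ℂ) * (v j : ℂ) * (W h u i z * W h u (2 * l - i) z * W h u (-j) z *
    W h u (j - 2 * l) z)) * this

/-- the integral of the square of `QV` -/
lemma int_QV (hB : IsOpen B) (hS : Sol B h u) {φ : ℂ → ℝ} (hφ : TF B φ) (v : ℤ →₀ ℝ) (l : ℤ) :
    ((∫ z, φ z * ‖QV v l h u z‖ ^ 2 : ℝ) : ℂ) = ∑ i ∈ v.support, ∑ j ∈ v.support,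
      ((v i : ℂ) * (v j : ℂ)) * FM h u φ i (2 * l - i) (-j) (j - 2 * l) := by
  have co := contW hB hS
  have e1 : ((∫ z, φ z * ‖QV v l h u z‖ ^ 2 : ℝ) : ℂ) = ∫ z, ∑ i ∈ v.support, ∑ j ∈ v.support,
      ((v i : ℂ) * (v j : ℂ)) * ((φ z : ℂ) *
        (W h u i z * W h u (2 * l - i) z * W h u (-j) z * W h u (j - 2 * l) z)) := by
    rw [← integral_complex_ofReal]
    congr 1
    funext z
    by_cases hz : z ∈ B
    · rw [Complex.ofReal_mul, normsq_QV hB hS v l hz, Finset.mul_sum]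
      refine Finset.sum_congr rfl fun i _ => ?_
      rw [Finset.mul_sum]
      refine Finset.sum_congr rfl fun j _ => ?_
      ring
    · have h0 : φ z = 0 := TF.zero hφ hz
      simp [h0]
  have hi : ∀ i j : ℤ, Integrable (fun z => ((v i : ℂ) * (v j : ℂ)) * ((φ z : ℂ) *
        (W h u i z * W h u (2 * l - i) z * W h u (-j) z * W h u (j - 2 * l) z))) := fun i j =>
    (TF.cint hφ ((((co _).mul (co _)).mul (co _)).mul (co _))).const_mul _
  rw [e1, integral_finsetSum _ (fun i _ => integrable_finsetSum _ fun j _ => hi i j)]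
  refine Finset.sum_congr rfl fun i _ => ?_
  rw [integral_finsetSum _ (fun j _ => hi i j)]
  refine Finset.sum_congr rfl fun j _ => ?_
  rw [integral_const_mul]
  rfl

lemma eps_eq (i j l : ℤ) : eps i (2 * l - i) (-j) (j - 2 * l) =
    1 / 3 + 2 / 3 * ((-1) ^ i.natAbs * (-1) ^ j.natAbs) := by
  unfold eps
  rcases Int.even_or_odd i with ha | ha <;> rcases Int.even_or_odd j with hb | hb
  · rw [if_pos (by obtain ⟨a, rfl⟩ := ha; obtain ⟨b, rfl⟩ := hb; omega), sgn_even ha, sgn_even hb]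
    norm_num
  · rw [if_neg (by obtain ⟨a, rfl⟩ := ha; obtain ⟨b, rfl⟩ := hb; omega), sgn_even ha, sgn_odd hb]
    norm_num
  · rw [if_neg (by obtain ⟨a, rfl⟩ := ha; obtain ⟨b, rfl⟩ := hb; omega), sgn_odd ha, sgn_even hb]
    norm_num
  · rw [if_pos (by obtain ⟨a, rfl⟩ := ha; obtain ⟨b, rfl⟩ := hb; omega), sgn_odd ha, sgn_odd hb]
    norm_num

/-- the complex form of `Bal` -/
lemma balC {v : ℤ →₀ ℝ} (hv : Bal v) : (∑ j ∈ v.support, (v j : ℂ)) = 0 ∧
    (∑ j ∈ v.support, (-1 : ℂ) ^ j.natAbs * (v j : ℂ)) = 0 := by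
  constructor
  · have := congrArg (fun x : ℝ => (x : ℂ)) hv.1
    simpa using this
  · have := congrArg (fun x : ℝ => (x : ℂ)) hv.2
    simpa using this

lemma sum_eps {v : ℤ →₀ ℝ} (hv : Bal v) (l : ℤ) : ∑ i ∈ v.support, ∑ j ∈ v.support,
    ((v i : ℂ) * (v j : ℂ)) * eps i (2 * l - i) (-j) (j - 2 * l) = 0 := by
  obtain ⟨h1, h2⟩ := balC hv
  have e : ∑ i ∈ v.support, ∑ j ∈ v.support,
      ((v i : ℂ) * (v j : ℂ)) * eps i (2 * l - i) (-j) (j - 2 * l) =
      1 / 3 * ((∑ i ∈ v.support, (v i : ℂ)) * ∑ j ∈ v.support, (v j : ℂ)) +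
      2 / 3 * ((∑ i ∈ v.support, (-1 : ℂ) ^ i.natAbs * (v i : ℂ)) *
        ∑ j ∈ v.support, (-1 : ℂ) ^ j.natAbs * (v j : ℂ)) := by
    rw [Finset.sum_mul_sum, Finset.sum_mul_sum, Finset.mul_sum, Finset.mul_sum,
      ← Finset.sum_add_distrib]
    refine Finset.sum_congr rfl fun i _ => ?_
    rw [Finset.mul_sum, Finset.mul_sum, ← Finset.sum_add_distrib]
    refine Finset.sum_congr rfl fun j _ => ?_
    rw [eps_eq]
    ring
  rw [e, h1, h2]
  ring

lemma GG_eq (i j l : ℤ) : GG i (2 * l - i) (-j) (j - 2 * l) =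
    (if l = 0 then ((-1) ^ i.natAbs * (-1) ^ j.natAbs) else 0) + (if j = i then 1 else 0) +
      (if j = 2 * l - i then 1 else 0) := by
  have s1 : (-1 : ℂ) ^ (2 * l - i).natAbs = (-1) ^ i.natAbs := by
    rw [sub_eq_add_neg, sgn_add, sgn_two, sgn_neg, one_mul]
  have s2 := sgn_sq i
  unfold GG CC
  rw [s1, sgn_neg]
  congr 1
  · congr 1
    · by_cases hl : l = 0
      · rw [if_pos (by omega), if_pos (by omega), if_pos hl]
      · rw [if_neg (by omega), if_neg hl, zero_mul]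
    · by_cases hl : j = i
      · rw [if_pos (by omega), if_pos (by omega), if_pos hl, s2]
      · rw [if_neg (by omega), if_neg hl, zero_mul]
  · by_cases hl : j = 2 * l - i
    · rw [if_pos (by omega), if_pos (by omega), if_pos hl, s2]
    · rw [if_neg (by omega), if_neg hl, zero_mul]

lemma sum_GG {v : ℤ →₀ ℝ} (hv : Bal v) (l : ℤ) : ∑ i ∈ v.support, ∑ j ∈ v.support,
    ((v i : ℂ) * (v j : ℂ)) * GG i (2 * l - i) (-j) (j - 2 * l) = ((KV v l : ℝ) : ℂ) := by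
  obtain ⟨h1, h2⟩ := balC hv
  have pick : ∀ k : ℤ, (∑ j ∈ v.support, if j = k then (v j : ℂ) else 0) = (v k : ℂ) := by
    intro k
    rw [Finset.sum_ite_eq' v.support k (fun j => (v j : ℂ))]
    by_cases hk : k ∈ v.support
    · rw [if_pos hk]
    · rw [if_neg hk, Finsupp.notMem_support_iff.1 hk]; simp
  have e : ∑ i ∈ v.support, ∑ j ∈ v.support,
      ((v i : ℂ) * (v j : ℂ)) * GG i (2 * l - i) (-j) (j - 2 * l) =
      (if l = 0 then 1 else 0) * ((∑ i ∈ v.support, (-1 : ℂ) ^ i.natAbs * (v i : ℂ)) *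
        ∑ j ∈ v.support, (-1 : ℂ) ^ j.natAbs * (v j : ℂ)) +
      ∑ i ∈ v.support, ((v i : ℂ) * ((v i : ℂ) + (v (2 * l - i) : ℂ))) := by
    rw [Finset.sum_mul_sum, Finset.mul_sum, ← Finset.sum_add_distrib]
    refine Finset.sum_congr rfl fun i _ => ?_
    rw [← pick i, ← pick (2 * l - i), pick i, Finset.mul_sum]
    have e3 : (v i : ℂ) * ((v i : ℂ) + ∑ j ∈ v.support, if j = 2 * l - i then (v j : ℂ) else 0) =
        ∑ j ∈ v.support, (v i : ℂ) * ((if j = i then (v j : ℂ) else 0) +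
          if j = 2 * l - i then (v j : ℂ) else 0) := by
      rw [← Finset.mul_sum, Finset.sum_add_distrib, pick i]
    rw [e3, ← Finset.sum_add_distrib]
    refine Finset.sum_congr rfl fun j _ => ?_
    rw [GG_eq]
    split_ifs <;> ring
  rw [e, h2, mul_zero, mul_zero, zero_add]
  unfold KV
  push_cast
  rfl

theorem QUART : S_QUART := by
  intro Ω hΩ h u hS φ hφ _ v hv l
  have key := (flat_fourth hΩ hS hφ).2.1
  set J : ℂ := ((∫ z, φ z : ℝ) : ℂ) with hJ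
  have h1 : Tendsto (fun n => ∑ i ∈ v.support, ∑ j ∈ v.support, ((v i : ℂ) * (v j : ℂ)) *
      (FM (h n) (u n) φ i (2 * l - i) (-j) (j - 2 * l) - eps i (2 * l - i) (-j) (j - 2 * l) *
        FM (h n) (u n) φ (2 * 0) 0 0 0)) atTop
      (𝓝 (∑ i ∈ v.support, ∑ j ∈ v.support, ((v i : ℂ) * (v j : ℂ)) *
        ((GG i (2 * l - i) (-j) (j - 2 * l) - eps i (2 * l - i) (-j) (j - 2 * l) *
          GG (2 * 0) 0 0 0) * J))) :=
    tendsto_finsetSum _ fun i _ => tendsto_finsetSum _ fun j _ =>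
      (key i (2 * l - i) (-j) (j - 2 * l) 0 (by ring)).const_mul _
  have e2 : (∑ i ∈ v.support, ∑ j ∈ v.support, ((v i : ℂ) * (v j : ℂ)) *
        ((GG i (2 * l - i) (-j) (j - 2 * l) - eps i (2 * l - i) (-j) (j - 2 * l) *
          GG (2 * 0) 0 0 0) * J)) = ((KV v l * ∫ z, φ z : ℝ) : ℂ) := by
    have e3 : (∑ i ∈ v.support, ∑ j ∈ v.support, ((v i : ℂ) * (v j : ℂ)) *
        ((GG i (2 * l - i) (-j) (j - 2 * l) - eps i (2 * l - i) (-j) (j - 2 * l) *
          GG (2 * 0) 0 0 0) * J)) =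
        (∑ i ∈ v.support, ∑ j ∈ v.support, ((v i : ℂ) * (v j : ℂ)) *
          GG i (2 * l - i) (-j) (j - 2 * l)) * J -
        (∑ i ∈ v.support, ∑ j ∈ v.support, ((v i : ℂ) * (v j : ℂ)) *
          eps i (2 * l - i) (-j) (j - 2 * l)) * (GG (2 * 0) 0 0 0 * J) := by
      rw [Finset.sum_mul, Finset.sum_mul, ← Finset.sum_sub_distrib]
      refine Finset.sum_congr rfl fun i _ => ?_
      rw [Finset.sum_mul, Finset.sum_mul, ← Finset.sum_sub_distrib]
      refine Finset.sum_congr rfl fun j _ => ?_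
      ring
    rw [e3, sum_GG hv, sum_eps hv, hJ]
    push_cast
    ring
  have e4 : ∀ n, (∑ i ∈ v.support, ∑ j ∈ v.support, ((v i : ℂ) * (v j : ℂ)) *
      (FM (h n) (u n) φ i (2 * l - i) (-j) (j - 2 * l) - eps i (2 * l - i) (-j) (j - 2 * l) *
        FM (h n) (u n) φ (2 * 0) 0 0 0)) =
      ((∫ z, φ z * ‖QV v l (h n) (u n) z‖ ^ 2 : ℝ) : ℂ) := by
    intro n
    have e5 : (∑ i ∈ v.support, ∑ j ∈ v.support, ((v i : ℂ) * (v j : ℂ)) *
        (FM (h n) (u n) φ i (2 * l - i) (-j) (j - 2 * l) - eps i (2 * l - i) (-j) (j - 2 * l) *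
          FM (h n) (u n) φ (2 * 0) 0 0 0)) =
        (∑ i ∈ v.support, ∑ j ∈ v.support, ((v i : ℂ) * (v j : ℂ)) *
          FM (h n) (u n) φ i (2 * l - i) (-j) (j - 2 * l)) -
        (∑ i ∈ v.support, ∑ j ∈ v.support, ((v i : ℂ) * (v j : ℂ)) *
          eps i (2 * l - i) (-j) (j - 2 * l)) * FM (h n) (u n) φ (2 * 0) 0 0 0 := by
      rw [Finset.sum_mul, ← Finset.sum_sub_distrib]
      refine Finset.sum_congr rfl fun i _ => ?_
      rw [Finset.sum_mul, ← Finset.sum_sub_distrib]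
      refine Finset.sum_congr rfl fun j _ => ?_
      ring
    rw [e5, sum_eps hv, zero_mul, sub_zero, int_QV hΩ (hS.sol n) hφ]
  rw [e2] at h1
  have h2 := h1.congr e4
  exact Complex.continuous_re.continuousAt.tendsto.comp h2 |>.congr (fun n => by simp) |>.trans
    (by simp)

end

end Pool.Agent.N426.BRQUART
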