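import Pool.Agent.N59.TT.Stm

/-!
Project TT (helper59), part PRD (helper426): products.
-/

set_option autoImplicit false

namespace Pool.Agent.N426.TT_PRD

open Pool.Agent.N59.TT

theorem main : S_PRD := by
  intro G H _ _ hG hH K _ hfp hF φ
  obtain ⟨A₁, hf₁, hc₁⟩ := hG K hfp hF ((MonoidHom.fst G H).comp φ)
  obtain ⟨A₂, hf₂, hc₂⟩ := hH K hfp hF ((MonoidHom.snd G H).comp φ)
  let p₁ : φ.range →* ((MonoidHom.fst G H).comp φ).range :=
    ((MonoidHom.fst G H).comp φ.range.subtype).codRestrict _ (by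
      rintro ⟨x, k, rfl⟩
      exact ⟨k, rfl⟩)
  let p₂ : φ.range →* ((MonoidHom.snd G H).comp φ).range :=
    ((MonoidHom.snd G H).comp φ.range.subtype).codRestrict _ (by
      rintro ⟨x, k, rfl⟩
      exact ⟨k, rfl⟩)
  have i₁ : (A₁.comap p₁).FiniteIndex := by
    refine ⟨?_⟩
    rw [Subgroup.index_comap]
    exact (inferInstance : (A₁.subgroupOf p₁.range).FiniteIndex).index_ne_zero
  have i₂ : (A₂.comap p₂).FiniteIndex := by
    refine ⟨?_⟩
    rw [Subgroup.index_comap]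
    exact (inferInstance : (A₂.subgroupOf p₂.range).FiniteIndex).index_ne_zero
  refine ⟨A₁.comap p₁ ⊓ A₂.comap p₂, inferInstance, fun x hx y hy => ?_⟩
  have h1 := hc₁ (p₁ x) (Subgroup.mem_inf.1 hx).1 (p₁ y) (Subgroup.mem_inf.1 hy).1
  have h2 := hc₂ (p₂ x) (Subgroup.mem_inf.1 hx).2 (p₂ y) (Subgroup.mem_inf.1 hy).2
  have h3 : (x : G × H).1 * (y : G × H).1 = (y : G × H).1 * (x : G × H).1 :=
    congrArg Subtype.val h1
  have h4 : (x : G × H).2 * (y : G × H).2 = (y : G × H).2 * (x : G × H).2 :=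
    congrArg Subtype.val h2
  apply Subtype.ext
  exact Prod.ext h3 h4

end Pool.Agent.N426.TT_PRD
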